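import Pool.Agent.H8.DS.TarA

/-!
# Module NEXT of the board ds_modules
-/

namespace DS

open Set MeasureTheory

theorem pf_NEXT : T_NEXT := by
  intro S B Y mw L ρ br n hC hG w hw y y' hgo b hb hD
  have hn : 0 < n := by
    rcases Nat.eq_zero_or_pos n with h0 | h0
    · exfalso
      subst h0
      have hw0 : w = [] := List.eq_nil_of_length_eq_zero hw
      subst hw0
      have h1 := hG [] rfl y y' hgo 0 (hC.br0 y'.1)
      apply h1
      simp [Sys.wc, Sys.wal]
    · exact h0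
  refine ⟨hn, ?_⟩
  have hwne : w ≠ [] := by
    intro h
    subst h
    simp only [List.length_nil] at hw
    omega
  have hmem := Y.Go_mem w y y' hgo hwne
  have hval := Y.Go_val w y y' hgo
  have hpos := Y.wal_pos w
  obtain ⟨⟨a1, a2⟩, ⟨a3, a4⟩⟩ := hmem
  have e1 : Y.wc w ≤ y'.2 := by
    rw [hval]; nlinarith [mul_pos hpos a1]
  have e2 : y'.2 ≤ Y.wc w + Y.wal w := by
    rw [hval]; nlinarith [mul_lt_mul_of_pos_left a2 hpos]
  have hg := hG w hw y y' hgo
  have f1 : 0 < Y.wc w := by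
    by_contra hcon
    push Not at hcon
    exact hg 0 (hC.br0 y'.1) ⟨hcon, by linarith⟩
  have f2 : Y.wc w + Y.wal w < 1 := by
    by_contra hcon
    push Not at hcon
    exact hg 1 (hC.br1 y'.1) ⟨by linarith, hcon⟩
  have hsub : Icc (Y.wc w) (Y.wc w + Y.wal w) ⊆ Ioo (0 : ℝ) 1 := by
    rintro x ⟨hx1, hx2⟩
    exact ⟨by linarith, by linarith⟩
  have hdis : Disjoint (Icc (Y.wc w) (Y.wc w + Y.wal w)) (br y'.1) := by
    rw [Set.disjoint_left]
    intro x hx hx2
    exact hg x hx2 hx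
  rcases hC.piece y'.1 (Y.wc w) (Y.wc w + Y.wal w) (by linarith) hsub hdis with ⟨b', hb', hsub'⟩ | h
  · have : b = b' := Y.det b b' y'.2 (hb.trans hb'.symm) hD (hsub' ⟨e1, e2⟩)
    rw [this]
    exact hsub'
  · exfalso
    exact Set.disjoint_left.mp (h b hb) ⟨e1, e2⟩ hD

end DS
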