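import Pool.Agent.H8.DS.TarA

/-!
# Module SAME of the board ds_modules
-/

namespace DS

open Set MeasureTheory

theorem SAMEaux.end_slit {S B : Type} (Y : Sys S B) (w : List B) (hw : w ≠ []) (z y z' y' : S × ℝ)
    (h : Y.Go w z y) (h' : Y.Go w z' y') : y'.1 = y.1 := by
  induction w generalizing z z' with
  | nil => exact absurd rfl hw
  | cons b w ih =>
    obtain ⟨a1, a2, a3⟩ := h
    obtain ⟨b1, b2, b3⟩ := h'
    by_cases hw' : w = []
    · subst hw'
      simp only [Sys.Go] at a3 b3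
      subst a3
      subst b3
      rfl
    · exact ih hw' _ _ a3 b3

theorem pf_SAME (h1 : T_NEXT) : T_SAME := by
  intro S B Y mw L ρ br n hC hG w hw z y z' y' hgo hgo' u
  induction u generalizing w z y z' y' with
  | nil =>
    intro y₁ _
    exact ⟨y', rfl⟩
  | cons b u ih =>
    intro y₁ hu
    obtain ⟨hb, hD, hu'⟩ := hu
    obtain ⟨hn, hsub⟩ := h1 S B Y mw L ρ br n hC hG w hw z y hgo b hb hD
    have hwne : w ≠ [] := by
      intro h
      subst h
      simp only [List.length_nil] at hw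
      omega
    have hmem := Y.Go_mem w z' y' hgo' hwne
    have hval := Y.Go_val w z' y' hgo'
    have hpos := Y.wal_pos w
    obtain ⟨⟨a1, a2⟩, ⟨a3, a4⟩⟩ := hmem
    have hD' : y'.2 ∈ Y.D b := by
      apply hsub
      constructor
      · rw [hval]; nlinarith [mul_pos hpos a1]
      · rw [hval]; nlinarith [mul_lt_mul_of_pos_left a2 hpos]
    have hslit : y'.1 = y.1 := SAMEaux.end_slit Y w hwne z y z' y' hgo hgo'
    have hb' : Y.src b = y'.1 := hb.trans hslit.symm
    obtain ⟨a, w₀, rfl⟩ := List.exists_cons_of_ne_nil hwne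
    have g1 : Y.Go ((a :: w₀) ++ [b]) z (Y.tgt b, Y.al b * y.2 + Y.c b) := by
      rw [Y.Go_append]
      exact ⟨y, hgo, by rw [Y.Go_single]; exact ⟨hb, hD, rfl⟩⟩
    have g2 : Y.Go ((a :: w₀) ++ [b]) z' (Y.tgt b, Y.al b * y'.2 + Y.c b) := by
      rw [Y.Go_append]
      exact ⟨y', hgo', by rw [Y.Go_single]; exact ⟨hb', hD', rfl⟩⟩
    have hlen : (w₀ ++ [b]).length = n := by
      rw [List.length_append, ← hw]
      rfl
    obtain ⟨_, _, g3⟩ := g1
    obtain ⟨_, _, g4⟩ := g2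
    obtain ⟨y₁', h5⟩ := ih (w₀ ++ [b]) hlen _ _ _ _ g3 g4 y₁ hu'
    exact ⟨y₁', hb', hD', h5⟩

end DS
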